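import Mathlib

/-!
# A finite nilpotent Mal'cev algebra which is not finitely based: basic definitions
-/

set_option autoImplicit false

namespace Pool.Agent.Helper43.NFB

open FirstOrder FirstOrder.Language

/-- the function symbols -/
inductive Fn : ℕ → Type
  | add : Fn 2
  | u : Fn 1
  | f : Fn 1

/-- the language with one binary and two unary function symbols -/
abbrev LL : FirstOrder.Language.{0, 0} := ⟨Fn, fun _ => Empty⟩

theorem finite_functions : Finite (Σ n, LL.Functions n) := by
  refine Finite.of_surjective
    (fun i : Fin 3 => (![⟨2, Fn.add⟩, ⟨1, Fn.u⟩, ⟨1, Fn.f⟩] i : Σ n, LL.Functions n)) ?_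
  rintro ⟨n, g⟩
  cases g with
  | add => exact ⟨0, rfl⟩
  | u => exact ⟨1, rfl⟩
  | f => exact ⟨2, rfl⟩

/-- a binary and two unary operations -/
structure Ops (B : Type) where
  a : B → B → B
  u : B → B
  f : B → B

/-- the operations of a structure -/
def ops (B : Type) [LL.Structure B] : Ops B where
  a x y := Structure.funMap (L := LL) (Fn.add : LL.Functions 2) ![x, y]
  u x := Structure.funMap (L := LL) (Fn.u : LL.Functions 1) ![x]
  f x := Structure.funMap (L := LL) (Fn.f : LL.Functions 1) ![x]

/-- the structure given by operations -/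
@[reducible] def mkS {B : Type} (O : Ops B) : LL.Structure B where
  funMap := fun {_} g x => match g, x with
    | Fn.add, x => O.a (x 0) (x 1)
    | Fn.u, x => O.u (x 0)
    | Fn.f, x => O.f (x 0)
  RelMap := fun {_} r => r.elim

theorem ops_mkS {B : Type} (O : Ops B) : @ops B (mkS O) = O := rfl

theorem funMap_add {B : Type} [LL.Structure B] (x : Fin 2 → B) :
    Structure.funMap (L := LL) (Fn.add : LL.Functions 2) x = (ops B).a (x 0) (x 1) := by
  change _ = Structure.funMap (L := LL) (Fn.add : LL.Functions 2) ![x 0, x 1]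
  congr 1
  funext i
  fin_cases i <;> rfl

theorem funMap_u {B : Type} [LL.Structure B] (x : Fin 1 → B) :
    Structure.funMap (L := LL) (Fn.u : LL.Functions 1) x = (ops B).u (x 0) := by
  change _ = Structure.funMap (L := LL) (Fn.u : LL.Functions 1) ![x 0]
  congr 1
  funext i
  fin_cases i
  rfl

theorem funMap_f {B : Type} [LL.Structure B] (x : Fin 1 → B) :
    Structure.funMap (L := LL) (Fn.f : LL.Functions 1) x = (ops B).f (x 0) := by
  change _ = Structure.funMap (L := LL) (Fn.f : LL.Functions 1) ![x 0]
  congr 1
  funext i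
  fin_cases i
  rfl

/-- terms -/
inductive Tm (α : Type) : Type
  | var (i : α)
  | add (t s : Tm α)
  | u (t : Tm α)
  | f (t : Tm α)

/-- evaluation of terms -/
def Tm.ev {α B : Type} (O : Ops B) (v : α → B) : Tm α → B
  | .var i => v i
  | .add t s => O.a (t.ev O v) (s.ev O v)
  | .u t => O.u (t.ev O v)
  | .f t => O.f (t.ev O v)

/-- translation to first-order terms -/
def Tm.toTerm {α : Type} : Tm α → LL.Term α
  | .var i => Term.var i
  | .add t s => Term.func (Fn.add : LL.Functions 2) ![t.toTerm, s.toTerm]
  | .u t => Term.func (Fn.u : LL.Functions 1) ![t.toTerm]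
  | .f t => Term.func (Fn.f : LL.Functions 1) ![t.toTerm]

theorem Tm.realize_toTerm {α B : Type} [LL.Structure B] (v : α → B) (t : Tm α) :
    t.toTerm.realize v = t.ev (ops B) v := by
  induction t with
  | var i => rfl
  | add t s iht ihs =>
    simp only [Tm.toTerm, Term.realize_func, Tm.ev]
    rw [funMap_add]
    simp only [Matrix.cons_val_zero, Matrix.cons_val_one]
    rw [iht, ihs]
  | u t ih =>
    simp only [Tm.toTerm, Term.realize_func, Tm.ev]
    rw [funMap_u]
    simp only [Matrix.cons_val_zero]
    rw [ih]
  | f t ih =>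
    simp only [Tm.toTerm, Term.realize_func, Tm.ev]
    rw [funMap_f]
    simp only [Matrix.cons_val_zero]
    rw [ih]

theorem exists_tm {α : Type} (t : LL.Term α) : ∃ t' : Tm α, ∀ (B : Type) [LL.Structure B]
    (v : α → B), t.realize v = t'.ev (ops B) v := by
  induction t with
  | var i => exact ⟨.var i, fun B _ v => rfl⟩
  | func g ts ih =>
    choose ts' hts' using ih
    cases g with
    | add =>
      refine ⟨.add (ts' 0) (ts' 1), fun B _ v => ?_⟩
      rw [Term.realize_func, funMap_add, hts', hts']
      rfl
    | u =>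
      refine ⟨.u (ts' 0), fun B _ v => ?_⟩
      rw [Term.realize_func, funMap_u, hts']
      rfl
    | f =>
      refine ⟨.f (ts' 0), fun B _ v => ?_⟩
      rw [Term.realize_func, funMap_f, hts']
      rfl

/-- identities -/
def Holds {B : Type} (O : Ops B) {α : Type} (t s : Tm α) : Prop :=
  ∀ v : α → B, t.ev O v = s.ev O v

/-- the second algebra satisfies the identities of the first one -/
def Var {A B : Type} (OA : Ops A) (OB : Ops B) : Prop :=
  ∀ (n : ℕ) (t s : Tm (Fin n)), Holds OA t s → Holds OB t s

theorem var_iff {A B : Type} [LL.Structure A] [LL.Structure B] :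
    (∀ (n : ℕ) (t s : LL.Term (Fin n)),
      (∀ v : Fin n → A, t.realize v = s.realize v) →
      ∀ w : Fin n → B, t.realize w = s.realize w) ↔ Var (ops A) (ops B) := by
  constructor
  · intro h n t s hts w
    have := h n t.toTerm s.toTerm (by
      intro v
      rw [t.realize_toTerm, s.realize_toTerm]
      exact hts v) w
    rwa [t.realize_toTerm, s.realize_toTerm] at this
  · intro h n t s hts w
    obtain ⟨t', ht'⟩ := exists_tm t
    obtain ⟨s', hs'⟩ := exists_tm s
    rw [ht', hs']
    apply h
    intro v
    rw [← ht', ← hs']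
    exact hts v

/-- compatibility of a relation with the operations -/
structure Compat {B : Type} (O : Ops B) (θ : B → B → Prop) : Prop where
  a : ∀ x y z w, θ x y → θ z w → θ (O.a x z) (O.a y w)
  u : ∀ x y, θ x y → θ (O.u x) (O.u y)
  f : ∀ x y, θ x y → θ (O.f x) (O.f y)

theorem compat_iff {B : Type} [LL.Structure B] (θ : B → B → Prop) :
    (∀ (n : ℕ) (g : LL.Functions n) (x y : Fin n → B),
      (∀ i, θ (x i) (y i)) → θ (Structure.funMap g x) (Structure.funMap g y)) ↔
      Compat (ops B) θ := by
  constructor
  · intro h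
    refine ⟨fun x y z w h1 h2 => ?_, fun x y h1 => ?_, fun x y h1 => ?_⟩
    · refine h 2 Fn.add ![x, z] ![y, w] (fun i => ?_)
      fin_cases i
      · exact h1
      · exact h2
    · refine h 1 Fn.u ![x] ![y] (fun i => ?_)
      fin_cases i
      exact h1
    · refine h 1 Fn.f ![x] ![y] (fun i => ?_)
      fin_cases i
      exact h1
  · intro h n g x y hxy
    cases g with
    | add =>
      rw [funMap_add, funMap_add]
      exact h.a _ _ _ _ (hxy 0) (hxy 1)
    | u =>
      rw [funMap_u, funMap_u]
      exact h.u _ _ (hxy 0)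
    | f =>
      rw [funMap_f, funMap_f]
      exact h.f _ _ (hxy 0)

/-! ### The algebra `A` of order 36 -/

/-- the indicator function `Z₂ → Z₃` -/
def ub (a : ZMod 2) : ZMod 3 := if a = 1 then 1 else 0

/-- the indicator function of the nonzero elements `Z₃ → Z₂` -/
def qq (b : ZMod 3) : ZMod 2 := if b = 0 then 0 else 1

/-- the universe of the algebra -/
abbrev AA : Type := ZMod 2 × ZMod 3 × ZMod 3 × ZMod 2

/-- the operation `f` -/
def gg (x : AA) : ZMod 2 := if x.2.1 = 1 then qq x.2.2.1 else 0

/-- the operations of the algebra of order 36 -/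
def OA : Ops AA where
  a x y := x + y
  u x := (0, 0, ub x.1, 0)
  f x := (0, 0, 0, gg x)

/-! ### The algebras `C n` -/

/-- the universe of the algebra `C n` -/
abbrev CC (n : ℕ) : Type := (Fin n → ZMod 2) × ((Fin n → ZMod 2) → ZMod 3) × ZMod 2

/-- the operations of the algebra `C n` -/
def OC (n : ℕ) : Ops (CC n) where
  a x y := x + y
  u x := (0, fun y => ub (∑ j, x.1 j * y j), 0)
  f x := (0, 0, ∑ y, qq (x.2.1 y))

end Pool.Agent.Helper43.NFB
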