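import Pool.Agent.Helper43.NFB.Ident

/-!
# An identity of `A` failing in `C (3k+1)`
-/

set_option autoImplicit false

namespace Pool.Agent.Helper43.NFB

/-- the parity of the number of `0/1` vectors of length `n` whose weight plus `c` is
not divisible by `3` -/
def FF (n : ℕ) (c : ZMod 3) : ZMod 2 := ∑ y : Fin n → ZMod 2, qq (c + ∑ i, ub (y i))

theorem FF_zero (c : ZMod 3) : FF 0 c = qq c := by simp [FF]

theorem FF_succ (n : ℕ) (c : ZMod 3) : FF (n + 1) c = FF n c + FF n (c + 1) := by
  have h := (Fin.consEquiv (fun _ : Fin (n + 1) => ZMod 2)).sum_comp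
    (fun y => qq (c + ∑ i, ub (y i)))
  rw [FF, ← h, Fintype.sum_prod_type]
  have h2 : ∀ g : ZMod 2 → ZMod 2, ∑ x, g x = g 0 + g 1 := by
    intro g
    exact Fin.sum_univ_two g
  rw [h2]
  congr 1
  · refine Finset.sum_congr rfl fun y _ => ?_
    simp only [Fin.consEquiv_apply, Fin.sum_univ_succ, Fin.cons_zero, Fin.cons_succ]
    congr 1
    rw [ub_zero, zero_add]
  · refine Finset.sum_congr rfl fun y _ => ?_
    simp only [Fin.consEquiv_apply, Fin.sum_univ_succ, Fin.cons_zero, Fin.cons_succ]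
    congr 1
    rw [show ub 1 = 1 by decide, add_assoc]

theorem FF_three (k : ℕ) : ∀ c, FF (3 * k) c = qq c := by
  induction k with
  | zero => exact FF_zero
  | succ k ih =>
    intro c
    rw [show 3 * (k + 1) = 3 * k + 1 + 1 + 1 by ring]
    simp only [FF_succ, ih]
    revert c
    decide

theorem FF_main (k : ℕ) : FF (3 * k + 1) 0 = 1 := by
  rw [FF_succ, FF_three, FF_three]
  decide

/-- `6 t` -/
def Tm.six {α : Type} (t : Tm α) : Tm α :=
  .add t (.add t (.add t (.add t (.add t t))))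

/-- `6 t + ∑ u(x_i)` -/
def sumU {α : Type} (t : Tm α) (l : List α) : Tm α :=
  l.foldr (fun i s => .add (.u (.var i)) s) t.six

theorem six_zmod2 (a : ZMod 2) : a + (a + (a + (a + (a + a)))) = 0 := by revert a; decide
theorem six_zmod3 (a : ZMod 3) : a + (a + (a + (a + (a + a)))) = 0 := by revert a; decide

theorem ev_six_A {α : Type} (v : α → AA) (t : Tm α) : t.six.ev OA v = 0 := by
  refine Prod.ext ?_ (Prod.ext ?_ (Prod.ext ?_ ?_))
  · exact six_zmod2 _
  · exact six_zmod3 _
  · exact six_zmod3 _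
  · exact six_zmod2 _

theorem ev_six_C {n : ℕ} {α : Type} (v : α → CC n) (t : Tm α) : t.six.ev (OC n) v = 0 := by
  refine Prod.ext ?_ (Prod.ext ?_ ?_)
  · exact funext fun _ => six_zmod2 _
  · exact funext fun _ => six_zmod3 _
  · exact six_zmod2 _

theorem sumU_A {α : Type} (v : α → AA) (t : Tm α) (l : List α) :
    ((sumU t l).ev OA v).2.1 = 0 := by
  induction l with
  | nil =>
    change (t.six.ev OA v).2.1 = 0
    rw [ev_six_A]
    rfl
  | cons i l ih =>
    have : ((sumU t (i :: l)).ev OA v).2.1 = 0 + ((sumU t l).ev OA v).2.1 := rfl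
    rw [this, ih, zero_add]

theorem sumU_C {n : ℕ} {α : Type} (v : α → CC n) (t : Tm α) (l : List α) (y : Fin n → ZMod 2) :
    ((sumU t l).ev (OC n) v).2.1 y = (l.map fun i => ub (∑ j, (v i).1 j * y j)).sum := by
  induction l with
  | nil =>
    change (t.six.ev (OC n) v).2.1 y = 0
    rw [ev_six_C]
    rfl
  | cons i l ih =>
    have : ((sumU t (i :: l)).ev (OC n) v).2.1 y =
      ub (∑ j, (v i).1 j * y j) + ((sumU t l).ev (OC n) v).2.1 y := rfl
    rw [this, ih]
    simp

theorem ident_A (N : ℕ) (i : Fin N) :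
    Holds OA (Tm.f (sumU (.var i) (List.finRange N))) (Tm.six (.var i)) := by
  intro v
  rw [ev_six_A]
  have h := sumU_A v (.var i) (List.finRange N)
  have : (Tm.f (sumU (.var i) (List.finRange N))).ev OA v =
    (0, 0, 0, gg ((sumU (.var i) (List.finRange N)).ev OA v)) := rfl
  rw [this, gg, h, if_neg (by decide)]
  rfl

theorem not_ident_C (k : ℕ) (i : Fin (3 * k + 1)) :
    ¬ Holds (OC (3 * k + 1)) (Tm.f (sumU (.var i) (List.finRange (3 * k + 1))))
      (Tm.six (.var i)) := by
  intro h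
  have h1 := congrArg (fun x => x.2.2) (h fun i => (fun j => if i = j then 1 else 0, 0, 0))
  rw [ev_six_C] at h1
  have h2 : ((Tm.f (sumU (.var i) (List.finRange (3 * k + 1)))).ev (OC (3 * k + 1))
      fun i => ((fun j => if i = j then 1 else 0, 0, 0) : CC (3 * k + 1))).2.2 =
      ∑ y, qq (((sumU (.var i) (List.finRange (3 * k + 1))).ev (OC (3 * k + 1))
      fun i => ((fun j => if i = j then 1 else 0, 0, 0) : CC (3 * k + 1))).2.1 y) := rfl
  rw [h2] at h1
  simp only [sumU_C] at h1
  simp only [ite_mul, one_mul, zero_mul, Finset.sum_ite_eq, Finset.mem_univ, if_true,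
    List.sum_ofFn, ← List.ofFn_eq_map] at h1
  have h3 := FF_main k
  rw [FF] at h3
  simp only [zero_add] at h3
  rw [h3] at h1
  have h4 : (1 : ZMod 2) = 0 := h1
  exact absurd h4 (by decide)

end Pool.Agent.Helper43.NFB
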