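import Pool.Agent.Helper43.NFB.Alg

/-!
# Identities of `A` in few variables hold in `C n`
-/

set_option autoImplicit false

namespace Pool.Agent.Helper43.NFB

noncomputable section

open scoped Classical

variable {α : Type} [Fintype α]

/-- linear coefficients of a term -/
def cf : Tm α → α → ℕ
  | .var i => fun j => if i = j then 1 else 0
  | .add t s => fun j => cf t j + cf s j
  | .u _ => fun _ => 0
  | .f _ => fun _ => 0

/-- the nonlinear part of the third coordinate -/
def hh : Tm α → (α → ZMod 2) → ZMod 3
  | .var _ => fun _ => 0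
  | .add t s => fun z => hh t z + hh s z
  | .u t => fun z => ub (∑ i, (cf t i : ZMod 2) * z i)
  | .f _ => fun _ => 0

/-- the top level subterms under `f` -/
def fs : Tm α → List (Tm α)
  | .var _ => []
  | .add t s => fs t ++ fs s
  | .u _ => []
  | .f t => [t]

theorem ub_zero : ub 0 = 0 := by decide

theorem evA_1 (v : α → AA) (t : Tm α) :
    (t.ev OA v).1 = ∑ i, (cf t i : ZMod 2) * (v i).1 := by
  induction t with
  | var i => simp [Tm.ev, cf]
  | add t s iht ihs =>
    simp only [Tm.ev, OA, Prod.fst_add]
    simp only [OA] at iht ihs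
    rw [iht, ihs, ← Finset.sum_add_distrib]
    refine Finset.sum_congr rfl fun i _ => ?_
    simp [cf, add_mul]
  | u t ih => simp [Tm.ev, cf, OA]
  | f t ih => simp [Tm.ev, cf, OA]

theorem evA_2 (v : α → AA) (t : Tm α) :
    (t.ev OA v).2.1 = ∑ i, (cf t i : ZMod 3) * (v i).2.1 := by
  induction t with
  | var i => simp [Tm.ev, cf]
  | add t s iht ihs =>
    simp only [Tm.ev, OA, Prod.fst_add, Prod.snd_add]
    simp only [OA] at iht ihs
    rw [iht, ihs, ← Finset.sum_add_distrib]
    refine Finset.sum_congr rfl fun i _ => ?_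
    simp [cf, add_mul]
  | u t ih => simp [Tm.ev, cf, OA]
  | f t ih => simp [Tm.ev, cf, OA]

theorem evA_3 (v : α → AA) (t : Tm α) :
    (t.ev OA v).2.2.1 = ∑ i, (cf t i : ZMod 3) * (v i).2.2.1 + hh t (fun i => (v i).1) := by
  induction t with
  | var i => simp [Tm.ev, cf, hh]
  | add t s iht ihs =>
    simp only [Tm.ev, OA, Prod.fst_add, Prod.snd_add]
    simp only [OA] at iht ihs
    rw [iht, ihs]
    have : ∑ i, (cf (Tm.add t s) i : ZMod 3) * (v i).2.2.1 =
        ∑ i, (cf t i : ZMod 3) * (v i).2.2.1 + ∑ i, (cf s i : ZMod 3) * (v i).2.2.1 := by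
      rw [← Finset.sum_add_distrib]
      refine Finset.sum_congr rfl fun i _ => ?_
      simp [cf, add_mul]
    rw [this]
    simp only [hh]
    ring
  | u t ih =>
    have h1 := evA_1 v t
    simp only [Tm.ev, cf, hh]
    rw [← h1]
    simp [OA]
  | f t ih => simp [Tm.ev, cf, OA, hh]

theorem evA_4 (v : α → AA) (t : Tm α) :
    (t.ev OA v).2.2.2 = ∑ i, (cf t i : ZMod 2) * (v i).2.2.2 +
      ((fs t).map fun t' => gg (t'.ev OA v)).sum := by
  induction t with
  | var i => simp [Tm.ev, cf, fs]
  | add t s iht ihs =>
    have : ∑ i, (cf (Tm.add t s) i : ZMod 2) * (v i).2.2.2 =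
        ∑ i, (cf t i : ZMod 2) * (v i).2.2.2 + ∑ i, (cf s i : ZMod 2) * (v i).2.2.2 := by
      rw [← Finset.sum_add_distrib]
      refine Finset.sum_congr rfl fun i _ => ?_
      simp [cf, add_mul]
    rw [this]
    simp only [fs, List.map_append, List.sum_append]
    have h2 : ((Tm.add t s).ev OA v).2.2.2 = (t.ev OA v).2.2.2 + (s.ev OA v).2.2.2 := rfl
    rw [h2, iht, ihs]
    ring
  | u t ih => simp [Tm.ev, cf, OA, fs]
  | f t ih =>
    simp only [Tm.ev, cf, fs]
    simp [OA]

theorem evC_1 {n : ℕ} (v : α → CC n) (t : Tm α) :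
    (t.ev (OC n) v).1 = fun j => ∑ i, (cf t i : ZMod 2) * (v i).1 j := by
  induction t with
  | var i => simp [Tm.ev, cf]
  | add t s iht ihs =>
    have h2 : ((Tm.add t s).ev (OC n) v).1 = (t.ev (OC n) v).1 + (s.ev (OC n) v).1 := rfl
    rw [h2, iht, ihs]
    funext j
    rw [Pi.add_apply, ← Finset.sum_add_distrib]
    refine Finset.sum_congr rfl fun i _ => ?_
    simp [cf, add_mul]
  | u t ih =>
    funext j
    simp [Tm.ev, cf, OC]
  | f t ih =>
    funext j
    simp [Tm.ev, cf, OC]

theorem evC_3 {n : ℕ} (v : α → CC n) (t : Tm α) (y : Fin n → ZMod 2) :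
    (t.ev (OC n) v).2.1 y = ∑ i, (cf t i : ZMod 3) * (v i).2.1 y +
      hh t (fun i => ∑ j, (v i).1 j * y j) := by
  induction t with
  | var i => simp [Tm.ev, cf, hh]
  | add t s iht ihs =>
    have h2 : ((Tm.add t s).ev (OC n) v).2.1 y = (t.ev (OC n) v).2.1 y + (s.ev (OC n) v).2.1 y :=
      rfl
    rw [h2, iht, ihs]
    have : ∑ i, (cf (Tm.add t s) i : ZMod 3) * (v i).2.1 y =
        ∑ i, (cf t i : ZMod 3) * (v i).2.1 y + ∑ i, (cf s i : ZMod 3) * (v i).2.1 y := by
      rw [← Finset.sum_add_distrib]
      refine Finset.sum_congr rfl fun i _ => ?_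
      simp [cf, add_mul]
    rw [this]
    simp only [hh]
    ring
  | u t ih =>
    have h1 := evC_1 v t
    have h2 : ((Tm.u t).ev (OC n) v).2.1 y = ub (∑ j, (t.ev (OC n) v).1 j * y j) := rfl
    rw [h2, h1]
    simp only [cf, hh, Nat.cast_zero, zero_mul, Finset.sum_const_zero, zero_add]
    congr 1
    simp only [Finset.sum_mul, Finset.mul_sum]
    rw [Finset.sum_comm]
    refine Finset.sum_congr rfl fun i _ => Finset.sum_congr rfl fun j _ => ?_
    ring
  | f t ih => simp [Tm.ev, cf, OC, hh]

theorem evC_4 {n : ℕ} (v : α → CC n) (t : Tm α) :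
    (t.ev (OC n) v).2.2 = ∑ i, (cf t i : ZMod 2) * (v i).2.2 +
      ((fs t).map fun t' => ∑ y, qq ((t'.ev (OC n) v).2.1 y)).sum := by
  induction t with
  | var i => simp [Tm.ev, cf, fs]
  | add t s iht ihs =>
    have : ∑ i, (cf (Tm.add t s) i : ZMod 2) * (v i).2.2 =
        ∑ i, (cf t i : ZMod 2) * (v i).2.2 + ∑ i, (cf s i : ZMod 2) * (v i).2.2 := by
      rw [← Finset.sum_add_distrib]
      refine Finset.sum_congr rfl fun i _ => ?_
      simp [cf, add_mul]
    rw [this]
    simp only [fs, List.map_append, List.sum_append]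
    have h2 : ((Tm.add t s).ev (OC n) v).2.2 = (t.ev (OC n) v).2.2 + (s.ev (OC n) v).2.2 := rfl
    rw [h2, iht, ihs]
    ring
  | u t ih => simp [Tm.ev, cf, OC, fs]
  | f t ih =>
    simp only [Tm.ev, cf, fs]
    simp [OC]

/-! ### Linear independence of the indicator functions of affine hyperplanes -/

/-- the pairing -/
def pr (l x : α → ZMod 3) : ZMod 3 := ∑ i, l i * x i

theorem pr_add (l x y : α → ZMod 3) : pr l (x + y) = pr l x + pr l y := by
  simp [pr, mul_add, Finset.sum_add_distrib]

theorem pr_sub (l x y : α → ZMod 3) : pr l (x - y) = pr l x - pr l y := by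
  simp [pr, mul_sub, Finset.sum_sub_distrib]

theorem pr_smul (l x : α → ZMod 3) (c : ZMod 3) : pr l (c • x) = c * pr l x := by
  simp only [pr, Pi.smul_apply, smul_eq_mul, Finset.mul_sum]
  exact Finset.sum_congr rfl fun i _ => by ring

theorem pr_single (l : α → ZMod 3) (i : α) (c : ZMod 3) : pr l (Pi.single i c) = l i * c := by
  simp [pr, Pi.single_apply]

/-- the parity of the number of `x` with `l0 x ∈ {0, 1}` and `l x = 1` -/
def cnt (l0 l : α → ZMod 3) : ZMod 2 :=
  ∑ x : α → ZMod 3, if (pr l0 x = 0 ∨ pr l0 x = 1) ∧ pr l x = 1 then 1 else 0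

theorem zmod2_add_self (a : ZMod 2) : a + a = 0 := CharTwo.add_self_eq_zero a

theorem cnt_eq (l0 l : α → ZMod 3) (h0 : l0 ≠ 0) : cnt l0 l = if l = l0 then 1 else 0 := by
  obtain ⟨i0, hi0⟩ : ∃ i, l0 i ≠ 0 := by
    by_contra h
    push Not at h
    exact h0 (funext h)
  -- the number of solutions with given value of `l0`
  have shift : ∀ (w : α → ZMod 3) (g : (α → ZMod 3) → ZMod 2),
      (∑ x : α → ZMod 3, g (x + w)) = ∑ x : α → ZMod 3, g x := by
    intro w g
    exact Equiv.sum_comp (Equiv.addRight w) g
  by_cases hl : l = l0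
  · subst hl
    rw [if_pos rfl]
    obtain ⟨w, hw⟩ : ∃ w, pr l w = 1 := by
      refine ⟨Pi.single i0 (l i0)⁻¹, ?_⟩
      rw [pr_single]
      exact mul_inv_cancel₀ hi0
    have h1 : cnt l l = ∑ x : α → ZMod 3, if pr l x = 1 then (1 : ZMod 2) else 0 := by
      refine Finset.sum_congr rfl fun x _ => ?_
      congr 1
      apply propext
      constructor
      · exact fun h => h.2
      · exact fun h => ⟨Or.inr h, h⟩
    have h2 : (∑ x : α → ZMod 3, if pr l x = 1 then (1 : ZMod 2) else 0) =
        ∑ x : α → ZMod 3, if pr l x = 0 then (1 : ZMod 2) else 0 := by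
      rw [← shift w (fun x => if pr l x = 1 then (1 : ZMod 2) else 0)]
      refine Finset.sum_congr rfl fun x _ => ?_
      congr 1
      apply propext
      rw [pr_add, hw]
      constructor
      · intro h
        simpa using h
      · intro h
        rw [h, zero_add]
    have h3 : (∑ x : α → ZMod 3, if pr l x = 2 then (1 : ZMod 2) else 0) =
        ∑ x : α → ZMod 3, if pr l x = 1 then (1 : ZMod 2) else 0 := by
      rw [← shift w (fun x => if pr l x = 2 then (1 : ZMod 2) else 0)]
      refine Finset.sum_congr rfl fun x _ => ?_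
      congr 1
      apply propext
      rw [pr_add, hw]
      generalize pr l x = c
      revert c
      decide
    have h4 : (∑ x : α → ZMod 3, if pr l x = 0 then (1 : ZMod 2) else 0) +
        (∑ x : α → ZMod 3, if pr l x = 1 then (1 : ZMod 2) else 0) +
        (∑ x : α → ZMod 3, if pr l x = 2 then (1 : ZMod 2) else 0) = 1 := by
      rw [← Finset.sum_add_distrib, ← Finset.sum_add_distrib]
      have : ∀ x : α → ZMod 3, (((if pr l x = 0 then (1 : ZMod 2) else 0) +
          (if pr l x = 1 then (1 : ZMod 2) else 0)) + if pr l x = 2 then (1 : ZMod 2) else 0)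
            = 1 := by
        intro x
        generalize pr l x = c
        revert c
        decide
      simp only [this, Finset.sum_const, Finset.card_univ, Fintype.card_fun, ZMod.card]
      rw [nsmul_eq_mul, mul_one, Nat.cast_pow]
      have : ((3 : ℕ) : ZMod 2) = 1 := by decide
      rw [this, one_pow]
    rw [h1]
    rw [h3, ← h2] at h4
    rw [zmod2_add_self, zero_add] at h4
    exact h4
  · rw [if_neg hl]
    by_cases hl1 : l = 0
    · subst hl1
      refine Finset.sum_eq_zero fun x _ => ?_
      rw [if_neg]
      rintro ⟨_, h⟩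
      simp [pr] at h
    · by_cases hl2 : l = -l0
      · subst hl2
        refine Finset.sum_eq_zero fun x _ => ?_
        rw [if_neg]
        rintro ⟨h1, h2⟩
        have h3 : pr (-l0) x = -pr l0 x := by simp [pr]
        rw [h3] at h2
        rcases h1 with h1 | h1
        · rw [h1] at h2
          exact absurd h2 (by decide)
        · rw [h1] at h2
          exact absurd h2 (by decide)
      · -- `l` and `l0` are independent
        obtain ⟨w, hw1, hw2⟩ : ∃ w, pr l0 w = 1 ∧ pr l w = 0 := by
          obtain ⟨i1, hi1⟩ : ∃ i, l i ≠ 0 := by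
            by_contra h
            push Not at h
            exact hl1 (funext h)
          have h3 : ∃ j, l0 j * l i1 - l j * l0 i1 ≠ 0 := by
            by_contra h
            push Not at h
            have h4 : ∀ j, l0 j = (l0 i1 * (l i1)⁻¹) * l j := by
              intro j
              have := h j
              rw [sub_eq_zero] at this
              have h5 : l0 j = l j * l0 i1 * (l i1)⁻¹ := by
                rw [← this, mul_assoc, mul_inv_cancel₀ hi1, mul_one]
              rw [h5]
              ring
            have h5 : ∀ c : ZMod 3, c = 0 ∨ c = 1 ∨ c = -1 := by decide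
            rcases h5 (l0 i1 * (l i1)⁻¹) with h6 | h6 | h6
            · apply h0
              funext j
              rw [h4 j, h6, zero_mul]
              rfl
            · apply hl
              funext j
              rw [h4 j, h6, one_mul]
            · apply hl2
              funext j
              rw [Pi.neg_apply, h4 j, h6]
              ring
          obtain ⟨j, hj⟩ := h3
          refine ⟨(l0 j * l i1 - l j * l0 i1)⁻¹ •
            (Pi.single j (l i1) - Pi.single i1 (l j)), ?_, ?_⟩
          · rw [pr_smul, pr_sub, pr_single, pr_single]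
            rw [show l0 j * l i1 - l0 i1 * l j = l0 j * l i1 - l j * l0 i1 by ring]
            exact inv_mul_cancel₀ hj
          · rw [pr_smul, pr_sub, pr_single, pr_single]
            rw [show l j * l i1 - l i1 * l j = 0 by ring, mul_zero]
        have h4 : cnt l0 l = (∑ x : α → ZMod 3, if pr l0 x = 0 ∧ pr l x = 1 then (1 : ZMod 2)
            else 0) + ∑ x : α → ZMod 3, if pr l0 x = 1 ∧ pr l x = 1 then (1 : ZMod 2) else 0 := by
          rw [← Finset.sum_add_distrib]
          refine Finset.sum_congr rfl fun x _ => ?_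
          generalize pr l0 x = c
          generalize pr l x = d
          revert c d
          decide
        have h5 : (∑ x : α → ZMod 3, if pr l0 x = 1 ∧ pr l x = 1 then (1 : ZMod 2) else 0) =
            ∑ x : α → ZMod 3, if pr l0 x = 0 ∧ pr l x = 1 then (1 : ZMod 2) else 0 := by
          rw [← shift w (fun x => if pr l0 x = 1 ∧ pr l x = 1 then (1 : ZMod 2) else 0)]
          refine Finset.sum_congr rfl fun x _ => ?_
          congr 1
          apply propext
          rw [pr_add, pr_add, hw1, hw2, add_zero]
          constructor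
          · rintro ⟨h1, h2⟩
            exact ⟨by simpa using h1, h2⟩
          · rintro ⟨h1, h2⟩
            exact ⟨by rw [h1, zero_add], h2⟩
        rw [h4, h5, zmod2_add_self]

/-- isolating the coefficient of one hyperplane -/
theorem isolate {ι : Type} (Λ : List ι) (l : ι → α → ZMod 3) (w : ι → ZMod 2)
    (h : ∀ x : α → ZMod 3, (Λ.map fun j => if pr (l j) x = 1 then w j else 0).sum = 0)
    (l0 : α → ZMod 3) (h0 : l0 ≠ 0) :
    (Λ.map fun j => if l j = l0 then w j else 0).sum = 0 := by
  have key : ∀ Λ : List ι, (∑ x : α → ZMod 3, if pr l0 x = 0 ∨ pr l0 x = 1 then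
      (Λ.map fun j => if pr (l j) x = 1 then w j else 0).sum else 0) =
      (Λ.map fun j => if l j = l0 then w j else 0).sum := by
    intro Λ
    induction Λ with
    | nil => simp
    | cons j Λ ih =>
      simp only [List.map_cons, List.sum_cons]
      rw [← ih]
      have h1 : (if l j = l0 then w j else 0) = ∑ x : α → ZMod 3,
          if pr l0 x = 0 ∨ pr l0 x = 1 then (if pr (l j) x = 1 then w j else 0) else 0 := by
        have h2 := cnt_eq l0 (l j) h0
        have h3 : (if l j = l0 then w j else 0) = cnt l0 (l j) * w j := by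
          rw [h2]
          split_ifs <;> simp
        rw [h3, cnt, Finset.sum_mul]
        refine Finset.sum_congr rfl fun x _ => ?_
        by_cases h4 : pr l0 x = 0 ∨ pr l0 x = 1
        · by_cases h5 : pr (l j) x = 1
          · simp [h4, h5]
          · simp [h4, h5]
        · simp [h4]
      rw [h1, ← Finset.sum_add_distrib]
      refine Finset.sum_congr rfl fun x _ => ?_
      split_ifs <;> simp
  rw [← key]
  refine Finset.sum_eq_zero fun x _ => ?_
  rw [h x]
  simp

theorem sum_by_fiber {ι : Type} (Λ : List ι) (l : ι → α → ZMod 3) (w : ι → ZMod 2) :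
    (Λ.map w).sum = ∑ l0 : α → ZMod 3, (Λ.map fun j => if l j = l0 then w j else 0).sum := by
  induction Λ with
  | nil => simp
  | cons j Λ ih =>
    simp only [List.map_cons, List.sum_cons, Finset.sum_add_distrib]
    rw [ih]
    simp

/-- Identities of `A` in fewer than `n` variables hold in `C n`. -/
theorem holds_C {N n : ℕ} (hN : N < n) (t s : Tm (Fin N)) (h : Holds OA t s) :
    Holds (OC n) t s := by
  -- the information contained in the identity
  have h2 : ∀ i, (cf t i : ZMod 2) = cf s i := by
    intro i
    have := congrArg Prod.fst (h fun j => ((if j = i then 1 else 0 : ZMod 2), 0, 0, 0))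
    rw [evA_1, evA_1] at this
    simpa using this
  have h3 : ∀ i, (cf t i : ZMod 3) = cf s i := by
    intro i
    have := congrArg (fun x : AA => x.2.1)
      (h fun j => (0, (if j = i then 1 else 0 : ZMod 3), 0, 0))
    simp only [evA_2] at this
    simpa using this
  have hhh : ∀ z, hh t z = hh s z := by
    intro z
    have := congrArg (fun x : AA => x.2.2.1) (h fun j => (z j, 0, 0, 0))
    simp only [evA_3] at this
    simpa using this
  have hfs : ∀ (z : Fin N → ZMod 2) (x b : Fin N → ZMod 3),
      ((fs t ++ fs s).map fun t' => if pr (fun i => (cf t' i : ZMod 3)) x = 1 then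
        qq (pr (fun i => (cf t' i : ZMod 3)) b + hh t' z) else 0).sum = 0 := by
    intro z x b
    have := congrArg (fun x : AA => x.2.2.2) (h fun j => (z j, x j, b j, 0))
    simp only [evA_4] at this
    simp only [mul_zero, Finset.sum_const_zero, zero_add, gg, evA_2, evA_3] at this
    rw [List.map_append, List.sum_append]
    have h5 : ∀ a b : ZMod 2, a = b → a + b = 0 := by
      rintro a _ rfl
      exact zmod2_add_self a
    exact h5 _ _ this
  -- the fibrewise statement
  have key : ∀ (z : Fin N → ZMod 2) (b : Fin N → ZMod 3),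
      ((fs t ++ fs s).map fun t' => qq (pr (fun i => (cf t' i : ZMod 3)) b + hh t' z)).sum =
      ((fs t ++ fs s).map fun t' => if (fun i => (cf t' i : ZMod 3)) = 0 then
        qq (hh t' z) else 0).sum := by
    intro z b
    rw [sum_by_fiber _ (fun t' : Tm (Fin N) => fun i => (cf t' i : ZMod 3)),
      Finset.sum_eq_single 0]
    · congr 1
      refine List.map_congr_left fun t' _ => ?_
      split_ifs with h5
      · rw [h5]
        simp [pr]
      · rfl
    · intro l0 _ hl0
      exact isolate _ _ _ (fun x => hfs z x b) l0 hl0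
    · simp
  intro v
  refine Prod.ext ?_ (Prod.ext ?_ ?_)
  · rw [evC_1, evC_1]
    funext j
    exact Finset.sum_congr rfl fun i _ => by rw [h2]
  · funext y
    rw [evC_3, evC_3, hhh]
    congr 1
    exact Finset.sum_congr rfl fun i _ => by rw [h3]
  · rw [evC_4, evC_4]
    congr 1
    · exact Finset.sum_congr rfl fun i _ => by rw [h2]
    · have h6 : ∀ a b : ZMod 2, a + b = 0 → a = b := by decide
      apply h6
      rw [← List.sum_append, ← List.map_append]
      have h7 : ∀ Λ : List (Tm (Fin N)), (Λ.map fun t' => ∑ y, qq ((t'.ev (OC n) v).2.1 y)).sum =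
          ∑ y, (Λ.map fun t' => qq ((t'.ev (OC n) v).2.1 y)).sum := by
        intro Λ
        induction Λ with
        | nil => simp
        | cons j Λ ih => simp [ih, Finset.sum_add_distrib]
      rw [h7]
      have h8 : ∀ y : Fin n → ZMod 2,
          ((fs t ++ fs s).map fun t' => qq ((t'.ev (OC n) v).2.1 y)).sum =
          ((fs t ++ fs s).map fun t' => if (fun i => (cf t' i : ZMod 3)) = 0 then
            qq (hh t' (fun i => ∑ j, (v i).1 j * y j)) else 0).sum := by
        intro y
        rw [← key _ (fun i => (v i).2.1 y)]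
        congr 1
        refine List.map_congr_left fun t' _ => ?_
        rw [evC_3]
        rfl
      simp only [h8]
      -- a nonzero vector killed by all the first coordinates
      obtain ⟨y0, hy0, hy1⟩ : ∃ y0 : Fin n → ZMod 2, y0 ≠ 0 ∧ ∀ i, ∑ j, (v i).1 j * y0 j = 0 := by
        obtain ⟨y, y', hne, heq⟩ := Fintype.exists_ne_map_eq_of_card_lt
          (fun (y : Fin n → ZMod 2) (i : Fin N) => ∑ j, (v i).1 j * y j) (by
            simp only [Fintype.card_fun, ZMod.card, Fintype.card_fin]
            exact Nat.pow_lt_pow_right (by norm_num) hN)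
        refine ⟨y - y', sub_ne_zero.2 hne, fun i => ?_⟩
        have := congrFun heq i
        beta_reduce at this
        simp only [Pi.sub_apply, mul_sub, Finset.sum_sub_distrib]
        rw [this, sub_self]
      refine Finset.sum_involution (fun y _ => y + y0) ?_ ?_ ?_ ?_
      · intro y _
        have : ∀ i, ∑ j, (v i).1 j * (y + y0) j = ∑ j, (v i).1 j * y j := by
          intro i
          simp only [Pi.add_apply, mul_add, Finset.sum_add_distrib, hy1, add_zero]
        simp only [this]
        exact zmod2_add_self _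
      · intro y _ _ h9
        exact hy0 (by simpa using h9)
      · intro y _
        exact Finset.mem_univ _
      · intro y _
        funext j
        simp only [Pi.add_apply]
        rw [add_assoc, zmod2_add_self, add_zero]

end

end Pool.Agent.Helper43.NFB
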