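import Pool.Agent.Helper43.NFB.Alg

/-!
# Uniform subdirect irreducibility
-/

set_option autoImplicit false

namespace Pool.Agent.Helper43.NFB

open FirstOrder FirstOrder.Language

/-- `x - y`, written as `x + 5 y` -/
def sb {B : Type} (O : Ops B) (x y : B) : B :=
  O.a x (O.a y (O.a y (O.a y (O.a y y))))

/-- conditions implying subdirect irreducibility with monolith `{0, e}` -/
structure SI {B : Type} (O : Ops B) (e : B) : Prop where
  assoc : ∀ x y z, O.a (O.a x y) z = O.a x (O.a y z)
  comm : ∀ x y, O.a x y = O.a y x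
  six : ∀ x y, O.a (sb O y y) x = x
  ee : sb O e e = O.a e e
  ue : ∀ x, O.u (O.a e x) = O.u x
  fe : ∀ x, O.f (O.a e x) = O.f x
  ene : ∀ x, O.a e x ≠ x
  u0 : ∀ c y, O.a c (O.u (sb O y y)) = c
  si : ∀ x y, x ≠ y → x = O.a e y ∨ (∃ c, O.f (O.a c (sb O x y)) = O.a e (O.f c)) ∨
    ∃ c, O.f (O.a c (O.u (sb O x y))) = O.a e (O.f c)

/-- the monolith -/
def mono {B : Type} (O : Ops B) (e : B) (x y : B) : Prop := x = y ∨ x = O.a e y

theorem SI.eex {B : Type} {O : Ops B} {e : B} (h : SI O e) (x : B) : O.a e (O.a e x) = x := by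
  rw [← h.assoc, ← h.ee, h.six]

theorem SI.mono_equiv {B : Type} {O : Ops B} {e : B} (h : SI O e) :
    Equivalence (mono O e) := by
  refine ⟨fun x => Or.inl rfl, ?_, ?_⟩
  · rintro x y (rfl | rfl)
    · exact Or.inl rfl
    · exact Or.inr (h.eex y).symm
  · rintro x y z (rfl | rfl) (rfl | rfl)
    · exact Or.inl rfl
    · exact Or.inr rfl
    · exact Or.inr rfl
    · exact Or.inl (h.eex z)

theorem SI.mono_compat {B : Type} {O : Ops B} {e : B} (h : SI O e) :
    Compat O (mono O e) := by
  refine ⟨?_, ?_, ?_⟩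
  · rintro x y z w (rfl | rfl) (rfl | rfl)
    · exact Or.inl rfl
    · right
      rw [← h.assoc, h.comm x e, h.assoc]
    · right
      rw [h.assoc]
    · left
      rw [h.assoc, ← h.assoc y e w, h.comm y e, h.assoc e y w, h.eex]
  · rintro x y (rfl | rfl)
    · exact Or.inl rfl
    · exact Or.inl (h.ue y)
  · rintro x y (rfl | rfl)
    · exact Or.inl rfl
    · exact Or.inl (h.fe y)

theorem SI.least {B : Type} {O : Ops B} {e : B} (h : SI O e) (θ : B → B → Prop)
    (hθ : Equivalence θ) (hc : Compat O θ) {x y : B} (hxy : θ x y) (hne : x ≠ y) (z w : B)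
    (hm : mono O e z w) : θ z w := by
  -- from one pair to all pairs
  have key : ∀ c, θ (O.a e c) c → ∀ z, θ (O.a e z) z := by
    intro c hcc z
    have h1 := hc.a _ _ _ _ (hc.a _ _ _ _ hcc
      (hθ.refl (O.a c (O.a c (O.a c (O.a c c)))))) (hθ.refl z)
    have h2 : O.a (O.a c (O.a c (O.a c (O.a c (O.a c c))))) z = z := h.six z c
    rw [h.assoc, h.assoc, ← h.assoc c, h2] at h1
    exact h1
  have hs : θ (sb O x y) (sb O y y) := hc.a _ _ _ _ hxy (hθ.refl _)
  have all : ∀ z, θ (O.a e z) z := by
    rcases h.si x y hne with h1 | ⟨c, hc1⟩ | ⟨c, hc1⟩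
    · rw [h1] at hxy
      exact key _ hxy
    · have h2 := hc.f _ _ (hc.a _ _ _ _ (hθ.refl c) hs)
      rw [h.comm c (sb O y y), h.six, hc1] at h2
      exact key _ h2
    · have h2 := hc.f _ _ (hc.a _ _ _ _ (hθ.refl c) (hc.u _ _ hs))
      rw [h.u0, hc1] at h2
      exact key _ h2
  rcases hm with rfl | rfl
  · exact hθ.refl _
  · exact all _

theorem SI.nontrivial {B : Type} {O : Ops B} {e : B} (h : SI O e) : Nontrivial B :=
  ⟨⟨O.a e e, e, h.ene e⟩⟩

/-! ### The algebras `C n` satisfy these conditions -/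

theorem five_zmod2 (a b : ZMod 2) : a + (b + (b + (b + (b + b)))) = a - b := by
  revert a b; decide
theorem five_zmod3 (a b : ZMod 3) : a + (b + (b + (b + (b + b)))) = a - b := by
  revert a b; decide

theorem sb_C {n : ℕ} (x y : CC n) : sb (OC n) x y = x - y := by
  refine Prod.ext ?_ (Prod.ext ?_ ?_)
  · exact funext fun _ => five_zmod2 _ _
  · exact funext fun _ => five_zmod3 _ _
  · exact five_zmod2 _ _

/-- the element generating the monolith -/
def ee (n : ℕ) : CC n := (0, 0, 1)

theorem f_change {n : ℕ} (h : (Fin n → ZMod 2) → ZMod 3) (y0 : Fin n → ZMod 2) (h0 : h y0 ≠ 0)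
    (l : Fin n → ZMod 2) (s : ZMod 2) :
    ∃ c : CC n, (OC n).f (c + (l, h, s)) = ee n + (OC n).f c := by
  classical
  refine ⟨(0, fun y => if y = y0 then 0 else h y, 0), ?_⟩
  refine Prod.ext ?_ (Prod.ext ?_ ?_)
  · rfl
  · rfl
  · change ∑ y, qq ((if y = y0 then 0 else h y) + h y) =
      1 + ∑ y, qq (if y = y0 then 0 else h y)
    rw [← Finset.sum_erase_add _ _ (Finset.mem_univ y0),
      ← Finset.sum_erase_add Finset.univ (fun y => qq (if y = y0 then 0 else h y))
        (Finset.mem_univ y0)]
    rw [if_pos rfl, zero_add]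
    have h1 : ∀ a : ZMod 3, a ≠ 0 → qq a = 1 := by decide
    have h2 : ∀ a : ZMod 3, qq (a + a) = qq a := by decide
    have h3 : qq 0 = 0 := by decide
    rw [h1 _ h0, h3, add_zero, add_comm]
    congr 1
    refine Finset.sum_congr rfl fun y hy => ?_
    rw [if_neg (Finset.ne_of_mem_erase hy)]
    exact h2 _

theorem SI_C (n : ℕ) : SI (OC n) (ee n) := by
  have e_add : ee n + ee n = 0 := by
    refine Prod.ext ?_ (Prod.ext ?_ ?_)
    · exact add_zero _
    · exact add_zero _
    · change (1 : ZMod 2) + 1 = 0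
      decide
  refine ⟨fun x y z => add_assoc _ _ _, fun x y => add_comm _ _, ?_, ?_, ?_, ?_, ?_, ?_, ?_⟩
  · intro x y
    rw [sb_C]
    change y - y + x = x
    rw [sub_self, zero_add]
  · rw [sb_C, sub_self]
    exact e_add.symm
  · intro x
    refine Prod.ext rfl (Prod.ext ?_ rfl)
    funext y
    change ub (∑ j, (0 + x.1 j) * y j) = ub (∑ j, x.1 j * y j)
    simp only [zero_add]
  · intro x
    refine Prod.ext rfl (Prod.ext rfl ?_)
    change ∑ y, qq (0 + x.2.1 y) = ∑ y, qq (x.2.1 y)
    simp only [zero_add]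
  · intro x h
    have h1 : (1 : ZMod 2) + x.2.2 = x.2.2 := congrArg (fun x => x.2.2) h
    revert h1
    generalize x.2.2 = a
    revert a
    decide
  · intro c y
    rw [sb_C, sub_self]
    have h1 : (OC n).u 0 = 0 := by
      refine Prod.ext rfl (Prod.ext ?_ rfl)
      funext y
      change ub (∑ j, (0 : Fin n → ZMod 2) j * y j) = 0
      simp only [Pi.zero_apply, zero_mul, Finset.sum_const_zero]
      decide
    rw [h1]
    exact add_zero c
  · intro x y hne
    rw [sb_C]
    have hd : x - y ≠ 0 := sub_ne_zero.2 hne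
    rcases hxy : x - y with ⟨l, h, s⟩
    rw [hxy] at hd
    by_cases h1 : h = 0
    · by_cases h2 : l = 0
      · left
        subst h1 h2
        have h3 : s = 1 := by
          have h4 : s ≠ 0 := by
            rintro rfl
            exact hd rfl
          have h5 : ∀ a : ZMod 2, a ≠ 0 → a = 1 := by decide
          exact h5 s h4
        subst h3
        rw [sub_eq_iff_eq_add] at hxy
        exact hxy
      · right
        right
        obtain ⟨j, hj⟩ : ∃ j, l j ≠ 0 := by
          by_contra h3
          push Not at h3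
          exact h2 (funext h3)
        have h4 : (OC n).u (l, h, s) = (0, fun y => ub (∑ j, l j * y j), 0) := rfl
        rw [h4]
        refine f_change _ (Pi.single j 1) ?_ _ _
        have h5 : ∑ i, l i * (Pi.single j 1 : Fin n → ZMod 2) i = l j := by
          simp [Pi.single_apply]
        rw [h5]
        revert hj
        generalize l j = a
        revert a
        decide
    · right
      left
      obtain ⟨y0, hy0⟩ : ∃ y0, h y0 ≠ 0 := by
        by_contra h3
        push Not at h3
        exact h1 (funext h3)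
      exact f_change _ y0 hy0 _ _

end Pool.Agent.Helper43.NFB
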