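import Pool.Agent.Helper43.NFB.Ident
import Pool.Agent.Helper43.NFB.SI

/-!
# Nilpotency of `A` and congruence permutability of its variety
-/

set_option autoImplicit false

namespace Pool.Agent.Helper43.NFB

/-! ### Congruence permutability -/

/-- the term `x + 5 y` -/
def sbT {α : Type} (x y : Tm α) : Tm α :=
  .add x (.add y (.add y (.add y (.add y y))))

theorem sbT_ev {α B : Type} (O : Ops B) (v : α → B) (x y : Tm α) :
    (sbT x y).ev O v = sb O (x.ev O v) (y.ev O v) := rfl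

theorem sb_A (x y : AA) : sb OA x y = x - y := by
  refine Prod.ext ?_ (Prod.ext ?_ (Prod.ext ?_ ?_))
  · exact five_zmod2 _ _
  · exact five_zmod3 _ _
  · exact five_zmod3 _ _
  · exact five_zmod2 _ _

/-- the Mal'cev term -/
def mal {B : Type} (O : Ops B) (x y z : B) : B := O.a (sb O x y) z

theorem mal_left {B : Type} {O : Ops B} (h : Var OA O) (x z : B) : mal O x x z = z := by
  have h1 := h 2 (.add (sbT (.var 0) (.var 0)) (.var 1)) (.var 1) (by
    intro v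
    change OA.a (sb OA (v 0) (v 0)) (v 1) = v 1
    rw [sb_A]
    change v 0 - v 0 + v 1 = v 1
    rw [sub_self, zero_add])
  exact h1 ![x, z]

theorem mal_right {B : Type} {O : Ops B} (h : Var OA O) (x z : B) : mal O x z z = x := by
  have h1 := h 2 (.add (sbT (.var 0) (.var 1)) (.var 1)) (.var 0) (by
    intro v
    change OA.a (sb OA (v 0) (v 1)) (v 1) = v 0
    rw [sb_A]
    change v 0 - v 1 + v 1 = v 0
    rw [sub_add_cancel])
  exact h1 ![x, z]

theorem perm {B : Type} {O : Ops B} (h : Var OA O) (α β : B → B → Prop)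
    (hα : Equivalence α) (hβ : Equivalence β) (cα : Compat O α) (cβ : Compat O β) (x y : B)
    (hz : ∃ z, α x z ∧ β z y) : ∃ z, β x z ∧ α z y := by
  obtain ⟨z, h1, h2⟩ := hz
  refine ⟨mal O x z y, ?_, ?_⟩
  · have h3 : β (mal O x z z) (mal O x z y) := cβ.a _ _ _ _ (hβ.refl _) h2
    rwa [mal_right h] at h3
  · have h3 : α (mal O x z y) (mal O z z y) :=
      cα.a _ _ _ _ (cα.a _ _ _ _ h1 (hα.refl _)) (hα.refl _)
    rwa [mal_left h] at h3

/-! ### Nilpotency -/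

/-- a central series -/
def th : ℕ → AA → AA → Prop
  | 0 => fun _ _ => True
  | 1 => fun x y => x.1 = y.1 ∧ x.2.1 = y.2.1
  | 2 => fun x y => x.1 = y.1 ∧ x.2.1 = y.2.1 ∧ x.2.2.1 = y.2.2.1
  | _ + 3 => fun x y => x = y

theorem th_equiv (i : ℕ) : Equivalence (th i) := by
  match i with
  | 0 => exact ⟨fun _ => trivial, fun _ => trivial, fun _ _ => trivial⟩
  | 1 =>
    exact ⟨fun _ => ⟨rfl, rfl⟩, fun h => ⟨h.1.symm, h.2.symm⟩,
      fun h h' => ⟨h.1.trans h'.1, h.2.trans h'.2⟩⟩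
  | 2 =>
    exact ⟨fun _ => ⟨rfl, rfl, rfl⟩, fun h => ⟨h.1.symm, h.2.1.symm, h.2.2.symm⟩,
      fun h h' => ⟨h.1.trans h'.1, h.2.1.trans h'.2.1, h.2.2.trans h'.2.2⟩⟩
  | _ + 3 => exact ⟨fun _ => rfl, fun h => h.symm, fun h h' => h.trans h'⟩

theorem th_compat (i : ℕ) : Compat OA (th i) := by
  match i with
  | 0 => exact ⟨fun _ _ _ _ _ _ => trivial, fun _ _ _ => trivial, fun _ _ _ => trivial⟩
  | 1 =>
    refine ⟨?_, ?_, ?_⟩
    · rintro x y z w ⟨h1, h2⟩ ⟨h3, h4⟩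
      exact ⟨congrArg₂ (· + ·) h1 h3, congrArg₂ (· + ·) h2 h4⟩
    · rintro x y _
      exact ⟨rfl, rfl⟩
    · rintro x y _
      exact ⟨rfl, rfl⟩
  | 2 =>
    refine ⟨?_, ?_, ?_⟩
    · rintro x y z w ⟨h1, h2, h5⟩ ⟨h3, h4, h6⟩
      exact ⟨congrArg₂ (· + ·) h1 h3, congrArg₂ (· + ·) h2 h4, congrArg₂ (· + ·) h5 h6⟩
    · rintro x y ⟨h1, h2, h3⟩
      exact ⟨rfl, rfl, congrArg ub h1⟩
    · rintro x y _
      exact ⟨rfl, rfl, rfl⟩
  | _ + 3 =>
    refine ⟨?_, ?_, ?_⟩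
    · rintro x y z w rfl rfl
      rfl
    · rintro x y rfl
      rfl
    · rintro x y rfl
      rfl

variable {m n : ℕ}

theorem diff1 (t : Tm (Fin m ⊕ Fin n)) (a : Fin m → AA) (c d : Fin n → AA) :
    (t.ev OA (Sum.elim a c)).1 - (t.ev OA (Sum.elim a d)).1 =
      ∑ j, (cf t (.inr j) : ZMod 2) * ((c j).1 - (d j).1) := by
  rw [evA_1, evA_1, Fintype.sum_sum_type, Fintype.sum_sum_type]
  simp only [Sum.elim_inl, Sum.elim_inr, add_sub_add_left_eq_sub, mul_sub,
    Finset.sum_sub_distrib]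

theorem diff2 (t : Tm (Fin m ⊕ Fin n)) (a : Fin m → AA) (c d : Fin n → AA) :
    (t.ev OA (Sum.elim a c)).2.1 - (t.ev OA (Sum.elim a d)).2.1 =
      ∑ j, (cf t (.inr j) : ZMod 3) * ((c j).2.1 - (d j).2.1) := by
  rw [evA_2, evA_2, Fintype.sum_sum_type, Fintype.sum_sum_type]
  simp only [Sum.elim_inl, Sum.elim_inr, add_sub_add_left_eq_sub, mul_sub,
    Finset.sum_sub_distrib]

theorem diff3 (t : Tm (Fin m ⊕ Fin n)) (a : Fin m → AA) (c d : Fin n → AA)
    (h1 : ∀ j, (c j).1 = (d j).1) :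
    (t.ev OA (Sum.elim a c)).2.2.1 - (t.ev OA (Sum.elim a d)).2.2.1 =
      ∑ j, (cf t (.inr j) : ZMod 3) * ((c j).2.2.1 - (d j).2.2.1) := by
  have h2 : (fun i => (Sum.elim a c i).1) = fun i => (Sum.elim a d i).1 := by
    funext i
    rcases i with i | i
    · rfl
    · exact h1 i
  rw [evA_3, evA_3, h2, Fintype.sum_sum_type, Fintype.sum_sum_type]
  simp only [Sum.elim_inl, Sum.elim_inr, add_sub_add_left_eq_sub, mul_sub,
    Finset.sum_sub_distrib, add_sub_add_right_eq_sub]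

theorem diff4 (t : Tm (Fin m ⊕ Fin n)) (a : Fin m → AA) (c d : Fin n → AA)
    (h1 : ∀ j, (c j).1 = (d j).1) (h2 : ∀ j, (c j).2.1 = (d j).2.1)
    (h3 : ∀ j, (c j).2.2.1 = (d j).2.2.1) :
    (t.ev OA (Sum.elim a c)).2.2.2 - (t.ev OA (Sum.elim a d)).2.2.2 =
      ∑ j, (cf t (.inr j) : ZMod 2) * ((c j).2.2.2 - (d j).2.2.2) := by
  have h4 : ((fs t).map fun t' => gg (t'.ev OA (Sum.elim a c))) =
      (fs t).map fun t' => gg (t'.ev OA (Sum.elim a d)) := by
    refine List.map_congr_left fun t' _ => ?_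
    have e2 := diff2 t' a c d
    have e3 := diff3 t' a c d h1
    simp only [h2, h3, sub_self, mul_zero, Finset.sum_const_zero, sub_eq_zero] at e2 e3
    rw [gg, gg, e2, e3]
  rw [evA_4, evA_4, h4, Fintype.sum_sum_type, Fintype.sum_sum_type]
  simp only [Sum.elim_inl, Sum.elim_inr, add_sub_add_left_eq_sub, mul_sub,
    Finset.sum_sub_distrib, add_sub_add_right_eq_sub]

theorem term_condition (i : ℕ) (hi : i < 3) (t : Tm (Fin m ⊕ Fin n)) (a b : Fin m → AA)
    (c d : Fin n → AA) (h : ∀ j, th i (c j) (d j))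
    (ha : th (i + 1) (t.ev OA (Sum.elim a c)) (t.ev OA (Sum.elim a d))) :
    th (i + 1) (t.ev OA (Sum.elim b c)) (t.ev OA (Sum.elim b d)) := by
  match i, hi with
  | 0, _ =>
    obtain ⟨h1, h2⟩ := ha
    rw [← sub_eq_zero, diff1] at h1
    rw [← sub_eq_zero, diff2] at h2
    refine ⟨?_, ?_⟩
    · rw [← sub_eq_zero, diff1, h1]
    · rw [← sub_eq_zero, diff2, h2]
  | 1, _ =>
    obtain ⟨h1, h2, h3⟩ := ha
    rw [← sub_eq_zero, diff1] at h1
    rw [← sub_eq_zero, diff2] at h2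
    rw [← sub_eq_zero, diff3 t a c d (fun j => (h j).1)] at h3
    refine ⟨?_, ?_, ?_⟩
    · rw [← sub_eq_zero, diff1, h1]
    · rw [← sub_eq_zero, diff2, h2]
    · rw [← sub_eq_zero, diff3 t b c d (fun j => (h j).1), h3]
  | 2, _ =>
    have ha' : t.ev OA (Sum.elim a c) = t.ev OA (Sum.elim a d) := ha
    have h1 := congrArg (fun x => x.1) ha'
    have h2 := congrArg (fun x => x.2.1) ha'
    have h3 := congrArg (fun x => x.2.2.1) ha'
    have h4 := congrArg (fun x => x.2.2.2) ha'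
    beta_reduce at h1 h2 h3 h4
    rw [← sub_eq_zero, diff1] at h1
    rw [← sub_eq_zero, diff2] at h2
    rw [← sub_eq_zero, diff3 t a c d (fun j => (h j).1)] at h3
    rw [← sub_eq_zero, diff4 t a c d (fun j => (h j).1) (fun j => (h j).2.1)
      (fun j => (h j).2.2)] at h4
    change t.ev OA (Sum.elim b c) = t.ev OA (Sum.elim b d)
    refine Prod.ext ?_ (Prod.ext ?_ (Prod.ext ?_ ?_))
    · rw [← sub_eq_zero, diff1, h1]
    · rw [← sub_eq_zero, diff2, h2]
    · rw [← sub_eq_zero, diff3 t b c d (fun j => (h j).1), h3]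
    · rw [← sub_eq_zero, diff4 t b c d (fun j => (h j).1) (fun j => (h j).2.1)
        (fun j => (h j).2.2), h4]

end Pool.Agent.Helper43.NFB
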