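import Pool.Agent.Helper43.NFB.SI

/-!
# Ultraproducts
-/

set_option autoImplicit false

namespace Pool.Agent.Helper43.NFB

open FirstOrder FirstOrder.Language Filter

noncomputable section

variable (M : ℕ → Type) [∀ k, LL.Structure (M k)] (u : Ultrafilter ℕ)

/-- the ultraproduct -/
abbrev PP : Type := (u : Filter ℕ).Product M

/-- the class of a family -/
def mkP (x : ∀ k, M k) : PP M u := (x : (u : Filter ℕ).Product M)

omit [∀ k, LL.Structure (M k)] in
theorem mkP_surj (x : PP M u) : ∃ x', x = mkP M u x' := by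
  obtain ⟨y, hy⟩ := Quotient.exists_rep x
  exact ⟨y, hy.symm⟩

omit [∀ k, LL.Structure (M k)] in
theorem mkP_eq {x y : ∀ k, M k} : mkP M u x = mkP M u y ↔ ∀ᶠ k in (u : Filter ℕ), x k = y k :=
  Quotient.eq''

theorem ops_a (x y : ∀ k, M k) : (ops (PP M u)).a (mkP M u x) (mkP M u y) =
    mkP M u (fun k => (ops (M k)).a (x k) (y k)) := by
  have h := Ultraproduct.funMap_cast (u := u) (M := M) (L := LL) (Fn.add : LL.Functions 2)
    ![x, y]
  have h2 : (fun i => ((![x, y] : Fin 2 → ∀ k, M k) i : (u : Filter ℕ).Product M)) =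
      ![mkP M u x, mkP M u y] := by
    funext i
    fin_cases i <;> rfl
  rw [h2] at h
  refine h.trans ?_
  apply congrArg (mkP M u)
  funext k
  rw [funMap_add]
  rfl

theorem ops_u (x : ∀ k, M k) : (ops (PP M u)).u (mkP M u x) =
    mkP M u (fun k => (ops (M k)).u (x k)) := by
  have h := Ultraproduct.funMap_cast (u := u) (M := M) (L := LL) (Fn.u : LL.Functions 1)
    ![x]
  have h2 : (fun i => ((![x] : Fin 1 → ∀ k, M k) i : (u : Filter ℕ).Product M)) =
      ![mkP M u x] := by
    funext i
    fin_cases i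
    rfl
  rw [h2] at h
  refine h.trans ?_
  apply congrArg (mkP M u)
  funext k
  rw [funMap_u]
  rfl

theorem ops_f (x : ∀ k, M k) : (ops (PP M u)).f (mkP M u x) =
    mkP M u (fun k => (ops (M k)).f (x k)) := by
  have h := Ultraproduct.funMap_cast (u := u) (M := M) (L := LL) (Fn.f : LL.Functions 1)
    ![x]
  have h2 : (fun i => ((![x] : Fin 1 → ∀ k, M k) i : (u : Filter ℕ).Product M)) =
      ![mkP M u x] := by
    funext i
    fin_cases i
    rfl
  rw [h2] at h
  refine h.trans ?_
  apply congrArg (mkP M u)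
  funext k
  rw [funMap_f]
  rfl

theorem sb_P (x y : ∀ k, M k) : sb (ops (PP M u)) (mkP M u x) (mkP M u y) =
    mkP M u (fun k => sb (ops (M k)) (x k) (y k)) := by
  simp only [sb, ops_a]

theorem SI_ultra (e : ∀ k, M k) (h : ∀ k, SI (ops (M k)) (e k)) :
    SI (ops (PP M u)) (mkP M u e) := by
  have nz : ∀ k, Nonempty (M k) := fun k => ⟨e k⟩
  refine ⟨?_, ?_, ?_, ?_, ?_, ?_, ?_, ?_, ?_⟩
  · intro x y z
    obtain ⟨x, rfl⟩ := mkP_surj M u x
    obtain ⟨y, rfl⟩ := mkP_surj M u y
    obtain ⟨z, rfl⟩ := mkP_surj M u z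
    simp only [ops_a]
    exact (mkP_eq M u).2 (Eventually.of_forall fun k => (h k).assoc _ _ _)
  · intro x y
    obtain ⟨x, rfl⟩ := mkP_surj M u x
    obtain ⟨y, rfl⟩ := mkP_surj M u y
    simp only [ops_a]
    exact (mkP_eq M u).2 (Eventually.of_forall fun k => (h k).comm _ _)
  · intro x y
    obtain ⟨x, rfl⟩ := mkP_surj M u x
    obtain ⟨y, rfl⟩ := mkP_surj M u y
    simp only [ops_a, sb_P]
    exact (mkP_eq M u).2 (Eventually.of_forall fun k => (h k).six _ _)
  · simp only [ops_a, sb_P]
    exact (mkP_eq M u).2 (Eventually.of_forall fun k => (h k).ee)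
  · intro x
    obtain ⟨x, rfl⟩ := mkP_surj M u x
    simp only [ops_a, ops_u]
    exact (mkP_eq M u).2 (Eventually.of_forall fun k => (h k).ue _)
  · intro x
    obtain ⟨x, rfl⟩ := mkP_surj M u x
    simp only [ops_a, ops_f]
    exact (mkP_eq M u).2 (Eventually.of_forall fun k => (h k).fe _)
  · intro x hx
    obtain ⟨x, rfl⟩ := mkP_surj M u x
    simp only [ops_a] at hx
    obtain ⟨k, hk⟩ := ((mkP_eq M u).1 hx).exists
    exact (h k).ene _ hk
  · intro c y
    obtain ⟨c, rfl⟩ := mkP_surj M u c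
    obtain ⟨y, rfl⟩ := mkP_surj M u y
    simp only [ops_a, ops_u, sb_P]
    exact (mkP_eq M u).2 (Eventually.of_forall fun k => (h k).u0 _ _)
  · intro x y hne
    obtain ⟨x, rfl⟩ := mkP_surj M u x
    obtain ⟨y, rfl⟩ := mkP_surj M u y
    have h1 : ∀ᶠ k in (u : Filter ℕ), x k ≠ y k := by
      rw [Ne, mkP_eq] at hne
      exact Ultrafilter.eventually_not.2 hne
    have h2 := h1.mono fun k hk => (h k).si _ _ hk
    rw [Ultrafilter.eventually_or, Ultrafilter.eventually_or] at h2
    rcases h2 with h2 | h2 | h2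
    · left
      simp only [ops_a]
      exact (mkP_eq M u).2 h2
    · right
      left
      refine ⟨mkP M u fun k => Classical.epsilon fun c =>
        (ops (M k)).f ((ops (M k)).a c (sb (ops (M k)) (x k) (y k))) =
          (ops (M k)).a (e k) ((ops (M k)).f c), ?_⟩
      simp only [ops_a, ops_f, sb_P]
      exact (mkP_eq M u).2 (h2.mono fun k hk => Classical.epsilon_spec hk)
    · right
      right
      refine ⟨mkP M u fun k => Classical.epsilon fun c =>
        (ops (M k)).f ((ops (M k)).a c ((ops (M k)).u (sb (ops (M k)) (x k) (y k)))) =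
          (ops (M k)).a (e k) ((ops (M k)).f c), ?_⟩
      simp only [ops_a, ops_f, ops_u, sb_P]
      exact (mkP_eq M u).2 (h2.mono fun k hk => Classical.epsilon_spec hk)

/-- identities holding eventually hold in the ultraproduct -/
theorem ident_ultra {n : ℕ} (t s : Tm (Fin n))
    (h : ∀ᶠ k in (u : Filter ℕ), Holds (ops (M k)) t s) : Holds (ops (PP M u)) t s := by
  intro w
  choose w' hw' using fun i => mkP_surj M u (w i)
  obtain rfl : w = fun i => mkP M u (w' i) := funext hw'
  have key : ∀ t : Tm (Fin n), t.ev (ops (PP M u)) (fun i => mkP M u (w' i)) =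
      mkP M u (fun k => t.ev (ops (M k)) fun i => w' i k) := by
    intro t
    induction t with
    | var i => rfl
    | add t s iht ihs => simp only [Tm.ev, iht, ihs, ops_a]
    | u t ih => simp only [Tm.ev, ih, ops_u]
    | f t ih => simp only [Tm.ev, ih, ops_f]
  rw [key, key]
  exact (mkP_eq M u).2 (h.mono fun k hk => hk _)

end

end Pool.Agent.Helper43.NFB
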